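import Pool.Agent.helper23.F2.Spec

set_option autoImplicit false

namespace Pool.Agent.F2

open Pool.Agent.helper23.TH

theorem AL12_ne {a b : Bool} (h : a ≠ b) : b = !a := by
  cases a <;> cases b <;> simp_all

theorem AL12 : AL12_stmt := by
  intro V L b s G H t ht hE hC
  obtain ⟨φ, hφ⟩ := hC
  obtain ⟨e₀⟩ := hE
  refine ⟨φ, hφ, ?_⟩
  have hadj : ∀ e : H.W ⊕ (H.E × Fin t), G.c (φ ((H.Lt t).ed e).2) = !(G.c (φ ((H.Lt t).ed e).1)) := by
    intro e
    exact AL12_ne (G.bip _ _ (hφ.adj e))
  have hw : ∀ w : H.W, G.c (φ (.inl (.inl w))) = !(G.c (φ (.inl (.inr (H.col w))))) := by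
    intro w
    exact hadj (.inl w)
  have hs : ∀ (e : H.E) (i : ℕ), i < t → G.c (φ (H.pt t e (i + 1))) = !(G.c (φ (H.pt t e i))) := by
    intro e i hi
    exact hadj (.inr (e, ⟨i, hi⟩))
  have hi : ∀ (e : H.E) (i : ℕ), i ≤ t → G.c (φ (H.pt t e i)) = xor (G.c (φ (H.pt t e 0))) (decide (i % 2 = 1)) := by
    intro e i
    induction i with
    | zero => intro _; simp
    | succ i ih =>
      intro h
      rw [hs e i (by omega), ih (by omega)]
      rcases Nat.mod_two_eq_zero_or_one i with h5 | h5
      · have h6 : (i + 1) % 2 = 1 := by omega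
        simp [h5, h6]
      · have h6 : (i + 1) % 2 = 0 := by omega
        simp [h5, h6]
  have hp0 : ∀ e : H.E, H.pt t e 0 = .inl (.inl (H.ed e).1) := by
    intro e
    unfold HG.pt
    rw [dif_neg (by omega), if_pos rfl]
  have hpt : ∀ e : H.E, H.pt t e t = .inl (.inl (H.ed e).2) := by
    intro e
    unfold HG.pt
    rw [dif_neg (by omega), if_neg (by omega)]
  have hxy : G.c (φ (.inl (.inr true))) = xor (G.c (φ (.inl (.inr false)))) (decide (t % 2 = 1)) := by
    have h1 := hi e₀ t le_rfl
    rw [hpt, hp0, hw, hw] at h1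
    have h2 := H.ok e₀
    revert h1
    generalize decide (t % 2 = 1) = q
    rcases hc1 : H.col (H.ed e₀).1 with _ | _ <;> rcases hc2 : H.col (H.ed e₀).2 with _ | _
    · exact absurd (hc1.trans hc2.symm) h2
    · generalize G.c (φ (.inl (.inr true))) = y
      generalize G.c (φ (.inl (.inr false))) = x
      cases x <;> cases y <;> cases q <;> simp
    · generalize G.c (φ (.inl (.inr true))) = y
      generalize G.c (φ (.inl (.inr false))) = x
      cases x <;> cases y <;> cases q <;> simp
    · exact absurd (hc1.trans hc2.symm) h2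
  have hb : ∀ b : Bool, G.c (φ (.inl (.inr b))) =
      xor (G.c (φ (.inl (.inr false)))) (b && decide (t % 2 = 1)) := by
    intro b
    cases b
    · simp
    · simpa using hxy
  have key : ∀ w : (H.W ⊕ Bool) ⊕ (H.E × Fin (t - 1)), G.c (φ w) =
      xor (!(G.c (φ (.inl (.inr false))))) (H.ltcol t w) := by
    rintro ((w | b) | ⟨e, k⟩)
    · rw [hw, hb]
      simp only [HG.ltcol]
      generalize (H.col w && decide (t % 2 = 1)) = q
      generalize G.c (φ (.inl (.inr false))) = x
      cases x <;> cases q <;> rfl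
    · rw [hb]
      simp only [HG.ltcol]
      generalize (b && decide (t % 2 = 1)) = q
      generalize G.c (φ (.inl (.inr false))) = x
      cases x <;> cases q <;> rfl
    · have hk := k.2
      have h1 := hi e (k.1 + 1) (by omega)
      have h2 : H.pt t e (k.1 + 1) = .inr (e, k) := by
        unfold HG.pt
        rw [dif_pos (by omega)]
        congr 2
      rw [h2, hp0, hw, hb] at h1
      rw [h1]
      simp only [HG.ltcol]
      generalize (H.col (H.ed e).1 && decide (t % 2 = 1)) = q
      generalize decide ((k.1 + 1) % 2 = 1) = q'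
      generalize G.c (φ (.inl (.inr false))) = x
      cases x <;> cases q <;> cases q' <;> rfl
  rcases hx : G.c (φ (.inl (.inr false))) with _ | _
  · right
    intro w
    have h1 := key w
    rw [hx] at h1
    simpa [HG.Lt] using h1
  · left
    intro w
    have h1 := key w
    rw [hx] at h1
    simpa [HG.Lt] using h1

end Pool.Agent.F2
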