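import Pool.Agent.helper23.F2.Spec

set_option autoImplicit false

namespace Pool.Agent.F2

open Pool.Agent.helper23.TH

open Classical in
theorem AX5 (hAX1 : AX1_stmt) : AX5_stmt := by
  intro V L _ b s G t q m m' ρ S Δ ht hAD hΔ
  have h0 : ∀ P ∈ S, G.A m (P 1) := by
    intro P hP
    have h1 := hAD.walk P hP 0
    rw [Fin.castSucc_zero, hAD.fst P hP] at h1
    exact h1
  have h1 : ∀ P ∈ S, G.A m' (P (Fin.last (t + 1)).castSucc) := by
    intro P hP
    have h1 := hAD.walk P hP (Fin.last (t + 1))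
    rw [Fin.succ_last, hAD.lst P hP] at h1
    exact G.symm _ _ h1
  have hmem : ∀ P ∈ S, P 1 ∈ aU S ∧ P (Fin.last (t + 1)).castSucc ∈ aU S := by
    intro P hP
    unfold aU
    simp only [Finset.mem_filter, Finset.mem_univ, true_and]
    exact ⟨Or.inl ⟨P, hP, rfl⟩, Or.inr ⟨P, hP, rfl⟩⟩
  constructor
  · have h2 : aU S ⊆ (Finset.univ.filter fun w => G.A m w) ∪ (Finset.univ.filter fun w => G.A m' w) := by
      intro x hx
      unfold aU at hx
      simp only [Finset.mem_filter, Finset.mem_univ, true_and] at hx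
      simp only [Finset.mem_union, Finset.mem_filter, Finset.mem_univ, true_and]
      rcases hx with ⟨P, hP, rfl⟩ | ⟨P, hP, rfl⟩
      · exact Or.inl (h0 P hP)
      · exact Or.inr (h1 P hP)
    have h3 := (Finset.card_le_card h2).trans (Finset.card_union_le _ _)
    have h4 : ((aU S).card : ℝ) ≤ (dg G.A Finset.univ m : ℝ) + (dg G.A Finset.univ m' : ℝ) := by
      unfold dg
      exact_mod_cast h3
    have h5 := hΔ m
    have h6 := hΔ m'
    linarith
  · have h2 : S.card ≤ q * (S.image fun P => (P 1, P (Fin.last (t + 1)).castSucc)).card := by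
      apply Finset.card_le_mul_card_image
      intro a ha
      rw [Finset.mem_image] at ha
      obtain ⟨P, hP, rfl⟩ := ha
      refine le_trans (Finset.card_le_card ?_) (hAD.bad P hP)
      intro Q hQ
      rw [Finset.mem_filter] at hQ
      obtain ⟨hQS, hQe⟩ := hQ
      rw [Prod.mk.injEq] at hQe
      rw [Finset.mem_filter]
      refine ⟨hQS, Or.inl ⟨?_, hQe.1.symm, ?_, ?_⟩⟩
      · rw [hAD.fst P hP, hAD.fst Q hQS]
      · rw [hAD.lst P hP, hAD.lst Q hQS]
      · refine ⟨.inl ⟨t, by omega⟩, ⟨?_, ?_⟩, ?_⟩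
        · intro h
          have h3 := congrArg Fin.val (Sum.inl.inj h)
          simp at h3
          omega
        · intro h
          have h3 := congrArg Fin.val (Sum.inl.inj h)
          simp at h3
        · have h3 : (⟨t, by omega⟩ : Fin (t + 2)).succ = (Fin.last (t + 1)).castSucc := by
            apply Fin.ext
            simp
          rw [Finset.not_disjoint_iff]
          refine ⟨G.nm (P (Fin.last (t + 1)).castSucc), ?_, ?_⟩
          · show G.nm (P (Fin.last (t + 1)).castSucc) ∈ G.lv (P (⟨t, by omega⟩ : Fin (t + 2)).succ)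
            rw [h3]
            exact G.nmm _
          · show G.nm (P (Fin.last (t + 1)).castSucc) ∈ G.lv (Q (⟨t, by omega⟩ : Fin (t + 2)).succ)
            rw [h3, ← hQe.2]
            exact G.nmm _
    have h3 : (S.image fun P => (P 1, P (Fin.last (t + 1)).castSucc)).card ≤
        ∑ v : {x // x ∈ aU S}, dg (fun x y : {x // x ∈ aU S} => aA S x.1 y.1) Finset.univ v := by
      unfold dg
      rw [← Finset.card_sigma]
      refine le_trans (Finset.card_le_card ?_)
        (Finset.card_image_le (f := fun p : (_ : {x // x ∈ aU S}) × {x // x ∈ aU S} => (p.1.1, p.2.1)))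
      intro a ha
      rw [Finset.mem_image] at ha
      obtain ⟨P, hP, rfl⟩ := ha
      rw [Finset.mem_image]
      refine ⟨⟨⟨P 1, (hmem P hP).1⟩, ⟨P (Fin.last (t + 1)).castSucc, (hmem P hP).2⟩⟩, ?_, rfl⟩
      rw [Finset.mem_sigma]
      refine ⟨Finset.mem_univ _, ?_⟩
      rw [Finset.mem_filter]
      exact ⟨Finset.mem_univ _, Or.inl ⟨P, hP, rfl, rfl⟩⟩
    have h4 : S.card ≤ q * ∑ v : {x // x ∈ aU S}, dg (fun x y : {x // x ∈ aU S} => aA S x.1 y.1) Finset.univ v :=
      h2.trans (Nat.mul_le_mul_left q h3)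
    exact_mod_cast h4

end Pool.Agent.F2
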